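import Pool.Agent.K3h60.SN.Main

/-!
# Non-classical symmetric nets with transitive groups on joined and on non-joined point pairs

Let `p` be a prime, `w ≥ 2`, `N = p ^ w - 1` and `F` the field with `p ^ N` elements. There is an
additive map `π : F → F` which commutes with the Frobenius map `z ↦ z ^ p` and whose image `W` is
`{0} ∪ {u ^ (p ^ i) : 0 ≤ i < N}`, so the Frobenius map is transitive on `W \ {0}`. The points are
`F ^ d × W`, and the blocks are the sets `y = π (m ⬝ x) + b`, `m ∈ F ^ d`, `b ∈ W`. Translations,
shears `(x, y) ↦ (x, y + π (a ⬝ x))` and `GL (d, F)` are transitive on ordered pairs of joined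
points, translations and the Frobenius map on ordered pairs of distinct non-joined points.
The net is not classical because its lines have fewer than `p ^ w` points.
The definitions are in `Pool.Agent.K3h60.SN.Defs`.
-/

set_option autoImplicit false

namespace Pool.Agent.Results.MP_36fbc5_co.NonClassical

open Pool.Agent.K3h60.SN

/-- **Negative answer to Q2.** For every prime `p` and all `w ≥ 2`, `d ≥ 1` there is a symmetric
`(s, μ)`-net with `s = p ^ w` and `μ = p ^ ((p ^ w - 1) * d - w) ≥ 2` which is not classical and
which has an automorphism group `G` that is transitive on the ordered (hence also on the unordered)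
pairs of joined points and also on the ordered pairs of distinct non-joined points. -/
theorem result (p : ℕ) (hp : p.Prime) (w : ℕ) (hw : 2 ≤ w) (d : ℕ) (hd : 1 ≤ d) :
    w + 1 ≤ (p ^ w - 1) * d ∧
    ∃ (V B : Type) (I : V → B → Prop),
      IsSymmetricNet I (p ^ w) (p ^ ((p ^ w - 1) * d - w)) ∧ ¬ IsClassical I ∧
      ∃ G : Subgroup (Equiv.Perm V), (∀ g ∈ G, MapsBlocks I g) ∧
        (∀ x y x' y', Joined I x y → Joined I x' y' → ∃ g ∈ G, g x = x' ∧ g y = y') ∧
        (∀ x y x' y', NonJoined I x y → NonJoined I x' y' → ∃ g ∈ G, g x = x' ∧ g y = y') := by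
  haveI : Fact p.Prime := ⟨hp⟩
  refine ⟨?_, main p w hw d hd⟩
  have h1 := w_mul_lt p w hp.two_le hw
  have h2 : w * 1 ≤ w * (p - 1) := Nat.mul_le_mul_left _ (by have := hp.two_le; omega)
  have h3 : (p ^ w - 1) * 1 ≤ (p ^ w - 1) * d := Nat.mul_le_mul_left _ hd
  omega

end Pool.Agent.Results.MP_36fbc5_co.NonClassical
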